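import Mathlib

/-! An Abelian theorem: if `#{p | Q p ≤ x} / x → A` then `σ ∑ Q p ^ (-(1+σ)) → A`. -/

set_option autoImplicit false

open Filter Topology Set

namespace Pool.Agent.W409.TW

theorem diff_bound {q q0 σ : ℝ} (h0 : 0 < q0) (hq : q0 ≤ q) (hσ : 0 < σ) (hσ1 : σ ≤ 1) :
    |q ^ (-(1 + σ)) - (⌈q⌉₊ : ℝ) ^ (-(1 + σ))| ≤ 2 * max 1 q0⁻¹ * q ^ (-2 : ℝ) := by
  have hq0 : 0 < q := h0.trans_le hq
  set k : ℝ := (⌈q⌉₊ : ℝ) with hk
  have hqk : q ≤ k := Nat.le_ceil q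
  have hk1 : k < q + 1 := Nat.ceil_lt_add_one hq0.le
  have hkp : 0 < k := hq0.trans_le hqk
  set r : ℝ := q / k with hr
  have hr0 : 0 < r := div_pos hq0 hkp
  have hr1 : r ≤ 1 := (div_le_one hkp).2 hqk
  have hkr : k ^ (-(1 + σ)) = q ^ (-(1 + σ)) * r ^ (1 + σ) := by
    rw [hr, Real.div_rpow hq0.le hkp.le, Real.rpow_neg hq0.le, Real.rpow_neg hkp.le]
    have : q ^ (1 + σ) ≠ 0 := (Real.rpow_pos_of_pos hq0 _).ne'
    field_simp
  have hr2 : r ^ (2 : ℝ) ≤ r ^ (1 + σ) :=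
    Real.rpow_le_rpow_of_exponent_ge hr0 hr1 (by linarith)
  have hr3 : r ^ (1 + σ) ≤ 1 := Real.rpow_le_one hr0.le hr1 (by linarith)
  have hr4 : 1 - r ^ (1 + σ) ≤ 2 / q := by
    have h1 : r ^ (2 : ℝ) = r ^ 2 := by norm_cast
    have h2 : 1 - r ≤ 1 / q := by
      rw [hr, le_div_iff₀ hq0]
      have : (1 - q / k) * q = (k - q) * (q / k) := by field_simp
      rw [this]
      have h3 : (k - q) * (q / k) ≤ 1 * 1 := by
        apply mul_le_mul (by linarith) hr1 hr0.le (by norm_num)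
      linarith
    have h3 : 1 - r ^ 2 ≤ 2 * (1 - r) := by nlinarith
    have h4 : 2 / q = 2 * (1 / q) := by ring
    rw [h4]
    rw [h1] at hr2
    linarith
  have hA : 0 < q ^ (-(1 + σ)) := Real.rpow_pos_of_pos hq0 _
  have hσq : q ^ (-σ) ≤ max 1 q0⁻¹ := by
    rcases le_total 1 q with h | h
    · exact (Real.rpow_le_one_of_one_le_of_nonpos h (by linarith)).trans (le_max_left _ _)
    · have h1 : q ^ (-σ) ≤ q ^ (-1 : ℝ) :=
        Real.rpow_le_rpow_of_exponent_ge hq0 h (by linarith)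
      have h2 : q ^ (-1 : ℝ) = q⁻¹ := Real.rpow_neg_one q
      rw [h2] at h1
      exact h1.trans ((inv_anti₀ h0 hq).trans (le_max_right _ _))
  rw [hkr]
  have e1 : q ^ (-(1 + σ)) - q ^ (-(1 + σ)) * r ^ (1 + σ) =
      q ^ (-(1 + σ)) * (1 - r ^ (1 + σ)) := by ring
  rw [e1, abs_of_nonneg (mul_nonneg hA.le (by linarith))]
  calc q ^ (-(1 + σ)) * (1 - r ^ (1 + σ)) ≤ q ^ (-(1 + σ)) * (2 / q) :=
        mul_le_mul_of_nonneg_left hr4 hA.le
    _ = 2 * (q ^ (-σ) * q ^ (-2 : ℝ)) := by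
        have h1 : q ^ (-(1 + σ)) = q ^ (-σ) * q ^ (-2 : ℝ) * q := by
          rw [← Real.rpow_add hq0]
          conv_rhs => rw [← Real.rpow_one q, ← Real.rpow_mul hq0.le]
          rw [← Real.rpow_add hq0]
          congr 1
          ring
        rw [h1]
        field_simp
    _ ≤ 2 * (max 1 q0⁻¹ * q ^ (-2 : ℝ)) := by
        have := Real.rpow_pos_of_pos hq0 (-2 : ℝ)
        gcongr
    _ = 2 * max 1 q0⁻¹ * q ^ (-2 : ℝ) := by ring

/-- An Abelian theorem. -/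
theorem abel {ι : Type*} (Q : ι → ℝ) (q0 A : ℝ) (hq0 : 0 < q0) (hQ : ∀ p, q0 ≤ Q p)
    (hsum : ∀ s : ℝ, 1 < s → Summable fun p => Q p ^ (-s))
    (hcount : Tendsto (fun n : ℕ => (Nat.card {p // Q p ≤ n} : ℝ) / n) atTop (𝓝 A)) :
    Tendsto (fun σ : ℝ => σ * ∑' p, Q p ^ (-(1 + σ))) (𝓝[>] 0) (𝓝 A) := by
  have hQp : ∀ p, 0 < Q p := fun p => hq0.trans_le (hQ p)
  -- finiteness
  have hfin : ∀ n : ℕ, Finite {p // Q p ≤ n} := by
    intro n
    have h2 := (hsum 2 (by norm_num)).tendsto_cofinite_zero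
    have h3 : ∀ᶠ p in cofinite, Q p ^ (-2 : ℝ) < ((n : ℝ) + 1) ^ (-2 : ℝ) :=
      h2.eventually (gt_mem_nhds (Real.rpow_pos_of_pos (by positivity) _))
    rw [Filter.eventually_cofinite] at h3
    refine Set.Finite.subset h3 ?_
    intro p hp
    have hp' : Q p ≤ n := hp
    have : ¬ (Q p ^ (-2 : ℝ) < ((n : ℝ) + 1) ^ (-2 : ℝ)) := by
      rw [not_lt]
      exact Real.rpow_le_rpow_of_nonpos (hQp p) (by linarith) (by norm_num)
    exact this
  set k : ι → ℕ := fun p => ⌈Q p⌉₊ with hk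
  have hk1 : ∀ p, 1 ≤ k p := fun p => Nat.one_le_ceil_iff.2 (hQp p)
  have hkn : ∀ p n, k p ≤ n ↔ Q p ≤ n := fun p n => Nat.ceil_le
  set f : ℕ → ℝ := fun n => (Nat.card {p // k p = n} : ℝ) with hf
  have hfinf : ∀ n, Finite {p // k p = n} := by
    intro n
    have : {p | k p = n} ⊆ {p | Q p ≤ n} := fun p hp => (hkn p n).1 (le_of_eq hp)
    exact Set.Finite.subset (hfin n) this
  have hf0 : ∀ n, 0 ≤ f n := fun n => Nat.cast_nonneg _
  have hsumf : ∀ n : ℕ, ∑ j ∈ Finset.Icc 1 n, f j = (Nat.card {p // Q p ≤ n} : ℝ) := by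
    intro n
    have e : {p // Q p ≤ n} ≃ Σ j : Finset.Icc 1 n, {p // k p = (j : ℕ)} :=
      { toFun := fun p => ⟨⟨k p.1, Finset.mem_Icc.2 ⟨hk1 _, (hkn _ _).2 p.2⟩⟩, ⟨p.1, rfl⟩⟩
        invFun := fun x => ⟨x.2.1, by
          have h1 : k x.2.1 = (x.1 : ℕ) := x.2.2
          have h2 := (Finset.mem_Icc.1 x.1.2).2
          exact (hkn _ _).1 (h1.le.trans h2)⟩
        left_inv := fun p => rfl
        right_inv := by
          rintro ⟨⟨j, hj⟩, ⟨p, hp⟩⟩
          obtain rfl : j = k p := hp.symm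
          rfl }
    rw [Nat.card_congr e, Nat.card_sigma]
    rw [Nat.cast_sum]
    rw [← Finset.sum_coe_sort (Finset.Icc 1 n) f]
  have hlim : Tendsto (fun n : ℕ => (∑ j ∈ Finset.Icc 1 n, f j) / (n : ℝ)) atTop (𝓝 A) := by
    simp_rw [hsumf]
    exact hcount
  have hL := LSeries_tendsto_sub_mul_nhds_one_of_tendsto_sum_div_and_nonneg f hlim hf0
  -- the ceiling sum
  have hsumk : ∀ s : ℝ, 1 < s → Summable fun p => (k p : ℝ) ^ (-s) := by
    intro s hs
    refine Summable.of_nonneg_of_le (fun p => Real.rpow_nonneg (Nat.cast_nonneg _) _)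
      (fun p => ?_) (hsum s hs)
    exact Real.rpow_le_rpow_of_nonpos (hQp p) (Nat.le_ceil _) (by linarith)
  have hLs : ∀ s : ℝ, 1 < s → LSeries (fun n => (f n : ℂ)) s =
      ((∑' p, (k p : ℝ) ^ (-s) : ℝ) : ℂ) := by
    intro s hs
    have h1 : ∑' p, (k p : ℝ) ^ (-s) = ∑' n : ℕ, f n * (n : ℝ) ^ (-s) := by
      rw [← (Equiv.sigmaFiberEquiv k).tsum_eq]
      have hs2 : Summable (fun c : (y : ℕ) × {x // k x = y} =>
          (k ((Equiv.sigmaFiberEquiv k) c) : ℝ) ^ (-s)) :=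
        (Equiv.sigmaFiberEquiv k).summable_iff.2 (hsumk s hs)
      rw [hs2.tsum_sigma' (fun n => ?_)]
      · refine tsum_congr fun n => ?_
        have : ∀ x : {p // k p = n}, (k (Equiv.sigmaFiberEquiv k ⟨n, x⟩) : ℝ) ^ (-s) =
            (n : ℝ) ^ (-s) := by
          intro x
          have : k (Equiv.sigmaFiberEquiv k ⟨n, x⟩) = n := x.2
          rw [this]
        rw [tsum_congr this, tsum_const, nsmul_eq_mul]
      · have := hfinf n
        exact Summable.of_finite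
    rw [h1, Complex.ofReal_tsum, LSeries]
    refine tsum_congr fun n => ?_
    rw [LSeries.term]
    split_ifs with hn
    · subst hn
      have : f 0 = 0 := by
        rw [hf]
        have : IsEmpty {p // k p = 0} := ⟨fun p => by
          have := hk1 p.1
          have h2 := p.2
          omega⟩
        simp
      rw [this]
      simp
    · rw [Complex.ofReal_mul, div_eq_mul_inv]
      congr 1
      rw [Complex.ofReal_cpow (Nat.cast_nonneg n)]
      push_cast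
      rw [Complex.cpow_neg]
  have hL2 : Tendsto (fun s : ℝ => (s - 1) * ∑' p, (k p : ℝ) ^ (-s)) (𝓝[>] 1) (𝓝 A) := by
    have h1 : Tendsto (fun s : ℝ => ((s : ℂ) - 1) * LSeries (fun n => (f n : ℂ)) s) (𝓝[>] 1)
        (𝓝 (A : ℂ)) := hL
    have h2 := (Complex.continuous_re.tendsto (A : ℂ)).comp h1
    rw [Complex.ofReal_re] at h2
    refine h2.congr' ?_
    filter_upwards [self_mem_nhdsWithin] with s hs
    rw [Function.comp_apply, hLs s hs]
    rw [← Complex.ofReal_one, ← Complex.ofReal_sub, ← Complex.ofReal_mul, Complex.ofReal_re]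
  have hL3 : Tendsto (fun σ : ℝ => σ * ∑' p, (k p : ℝ) ^ (-(1 + σ))) (𝓝[>] 0) (𝓝 A) := by
    have h1 : Tendsto (fun σ : ℝ => 1 + σ) (𝓝[>] 0) (𝓝[>] 1) := by
      refine tendsto_nhdsWithin_iff.2 ⟨?_, ?_⟩
      · have : Tendsto (fun σ : ℝ => 1 + σ) (𝓝 0) (𝓝 (1 + 0)) := by
          exact (continuous_const.add continuous_id).tendsto 0
        rw [add_zero] at this
        exact this.mono_left nhdsWithin_le_nhds
      · filter_upwards [self_mem_nhdsWithin] with σ hσ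
        have : (0 : ℝ) < σ := hσ
        show (1 : ℝ) < 1 + σ
        linarith
    refine (hL2.comp h1).congr fun σ => ?_
    simp only [Function.comp_apply, add_sub_cancel_left]
  -- the difference
  set C : ℝ := 2 * max 1 q0⁻¹ * ∑' p, Q p ^ (-2 : ℝ) with hC
  have hdiff : ∀ σ : ℝ, 0 < σ → σ ≤ 1 →
      |∑' p, Q p ^ (-(1 + σ)) - ∑' p, (k p : ℝ) ^ (-(1 + σ))| ≤ C := by
    intro σ hσ hσ1
    rw [← (hsum (1 + σ) (by linarith)).tsum_sub (hsumk (1 + σ) (by linarith)), hC, ← tsum_mul_left]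
    have hs2 : Summable fun p => 2 * max 1 q0⁻¹ * Q p ^ (-2 : ℝ) :=
      (hsum 2 (by norm_num)).mul_left _
    have := tsum_of_norm_bounded (f := fun p => Q p ^ (-(1 + σ)) - (k p : ℝ) ^ (-(1 + σ)))
      hs2.hasSum (fun p => by
        rw [Real.norm_eq_abs]
        exact diff_bound hq0 (hQ p) hσ hσ1)
    rwa [Real.norm_eq_abs] at this
  have hD : Tendsto (fun σ : ℝ => σ * (∑' p, Q p ^ (-(1 + σ)) - ∑' p, (k p : ℝ) ^ (-(1 + σ))))
      (𝓝[>] 0) (𝓝 0) := by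
    have h1 : Tendsto (fun σ : ℝ => |σ| * C) (𝓝[>] 0) (𝓝 0) := by
      have : Tendsto (fun σ : ℝ => |σ| * C) (𝓝 0) (𝓝 (|0| * C)) :=
        ((continuous_abs).mul continuous_const).tendsto 0
      rw [abs_zero, zero_mul] at this
      exact this.mono_left nhdsWithin_le_nhds
    refine squeeze_zero_norm' ?_ h1
    have h2 : Ioc (0 : ℝ) 1 ∈ 𝓝[>] (0 : ℝ) := Ioc_mem_nhdsGT (by norm_num)
    filter_upwards [h2] with σ hσ
    rw [norm_mul, Real.norm_eq_abs, Real.norm_eq_abs]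
    exact mul_le_mul_of_nonneg_left (hdiff σ hσ.1 hσ.2) (abs_nonneg _)
  have := hL3.add hD
  rw [add_zero] at this
  refine this.congr fun σ => ?_
  ring

end Pool.Agent.W409.TW
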