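import Mathlib

/-! Lattice points in ellipses. -/

set_option autoImplicit false

open Filter Topology Set MeasureTheory UpperHalfPlane Bornology Pointwise

namespace Pool.Agent.W409.TW

/-- the disc in the plane `Fin 2 → ℝ` -/
def D2 : Set (Fin 2 → ℝ) := {w | w 0 ^ 2 + w 1 ^ 2 ≤ 1}

theorem D2_pre : Complex.measurableEquivPi ⁻¹' D2 = Metric.closedBall (0 : ℂ) 1 := by
  ext w
  rw [mem_preimage, mem_closedBall_zero_iff]
  have h1 : Complex.measurableEquivPi w = ![w.re, w.im] := rfl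
  rw [h1]
  show (![w.re, w.im] : Fin 2 → ℝ) 0 ^ 2 + (![w.re, w.im] : Fin 2 → ℝ) 1 ^ 2 ≤ 1 ↔ _
  simp only [Matrix.cons_val_zero, Matrix.cons_val_one]
  have h2 : w.re ^ 2 + w.im ^ 2 = ‖w‖ ^ 2 := by
    rw [← Complex.normSq_eq_norm_sq, Complex.normSq_apply]; ring
  rw [h2]
  constructor
  · intro h
    nlinarith [norm_nonneg w]
  · intro h
    nlinarith [norm_nonneg w]

theorem D2_vol : volume D2 = ENNReal.ofReal Real.pi := by
  rw [← Complex.volume_preserving_equiv_pi.measure_preimage_equiv, D2_pre,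
    Complex.volume_closedBall]
  have h1 : Real.pi.toNNReal = NNReal.pi := by
    apply NNReal.eq
    rw [Real.coe_toNNReal _ Real.pi_pos.le]
    rfl
  simp [ENNReal.ofReal, h1]

/-- the ellipse -/
def El (z : ℍ) (a b : ℝ) : Set (Fin 2 → ℝ) :=
  {v | ‖(a : ℂ) * v 0 * z + b * v 1‖ ^ 2 / z.im ≤ 1}

/-- the linear map which maps the ellipse to the disc -/
noncomputable def lm (z : ℍ) (a b : ℝ) : (Fin 2 → ℝ) →ₗ[ℝ] (Fin 2 → ℝ) :=
  Matrix.toLin' !![a * z.re / √z.im, b / √z.im; a * z.im / √z.im, 0]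

theorem nrm (z : ℍ) (a b : ℝ) (u v : ℝ) :
    ‖(a : ℂ) * u * z + b * v‖ ^ 2 = (a * u * z.re + b * v) ^ 2 + (a * u * z.im) ^ 2 := by
  rw [← Complex.normSq_eq_norm_sq, Complex.normSq_apply]
  have h1 : ((a : ℂ) * u * z + b * v).re = a * u * z.re + b * v := by
    simp [Complex.mul_re, UpperHalfPlane.coe_re]
  have h2 : ((a : ℂ) * u * z + b * v).im = a * u * z.im := by
    simp [Complex.mul_im, UpperHalfPlane.coe_im]
  rw [h1, h2]
  ring

theorem El_pre (z : ℍ) (a b : ℝ) : lm z a b ⁻¹' D2 = El z a b := by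
  ext v
  have hy : 0 < z.im := z.im_pos
  have hs : 0 < √z.im := Real.sqrt_pos.2 hy
  have hss : √z.im ^ 2 = z.im := Real.sq_sqrt hy.le
  have h0 : (lm z a b v) 0 = (a * v 0 * z.re + b * v 1) / √z.im := by
    simp [lm, Matrix.mulVec, dotProduct, Fin.sum_univ_two]
    ring
  have h1 : (lm z a b v) 1 = (a * v 0 * z.im) / √z.im := by
    simp [lm, Matrix.mulVec, dotProduct, Fin.sum_univ_two]
    ring
  show (lm z a b v) 0 ^ 2 + (lm z a b v) 1 ^ 2 ≤ 1 ↔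
    ‖(a : ℂ) * v 0 * z + b * v 1‖ ^ 2 / z.im ≤ 1
  rw [h0, h1, nrm, div_pow, div_pow, hss, add_div]

theorem lm_det (z : ℍ) (a b : ℝ) : LinearMap.det (lm z a b) = -(a * b) := by
  have hy : 0 < z.im := z.im_pos
  have hs : 0 < √z.im := Real.sqrt_pos.2 hy
  have hss : √z.im ^ 2 = z.im := Real.sq_sqrt hy.le
  rw [lm, LinearMap.det_toLin', Matrix.det_fin_two]
  simp only [Matrix.of_apply, Matrix.cons_val', Matrix.cons_val_zero, Matrix.cons_val_fin_one,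
    Matrix.cons_val_one, mul_zero, zero_sub]
  have : b / √z.im * (a * z.im / √z.im) = a * b * (z.im / √z.im ^ 2) := by ring
  rw [this, hss, div_self hy.ne', mul_one]

theorem El_vol (z : ℍ) (a b : ℝ) (ha : 0 < a) (hb : 0 < b) :
    volume.real (El z a b) = Real.pi / (a * b) := by
  have hd : LinearMap.det (lm z a b) ≠ 0 := by
    rw [lm_det]
    exact neg_ne_zero.2 (mul_pos ha hb).ne'
  rw [← El_pre, measureReal_def, Measure.addHaar_preimage_linearMap volume hd, D2_vol,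
    ENNReal.toReal_mul, ENNReal.toReal_ofReal (abs_nonneg _), ENNReal.toReal_ofReal Real.pi_pos.le,
    lm_det, abs_inv, abs_neg, abs_of_pos (mul_pos ha hb)]
  field_simp

theorem El_bdd (z : ℍ) (a b : ℝ) (ha : 1 ≤ a) (hb : 1 ≤ b) : IsBounded (El z a b) := by
  have hy : 0 < z.im := z.im_pos
  have hs : 0 < √z.im := Real.sqrt_pos.2 hy
  have hss : √z.im ^ 2 = z.im := Real.sq_sqrt hy.le
  rw [isBounded_iff_forall_norm_le]
  refine ⟨1 / √z.im + √z.im + |z.re| / √z.im, fun v hv => ?_⟩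
  have hv' : ‖(a : ℂ) * v 0 * z + b * v 1‖ ^ 2 / z.im ≤ 1 := hv
  rw [nrm, div_le_one hy] at hv'
  have h1 : (a * v 0 * z.im) ^ 2 ≤ z.im := by nlinarith [sq_nonneg (a * v 0 * z.re + b * v 1)]
  have h2 : (a * v 0 * z.re + b * v 1) ^ 2 ≤ z.im := by nlinarith [sq_nonneg (a * v 0 * z.im)]
  have h3 : |a * v 0 * z.im| ≤ √z.im := Real.abs_le_sqrt h1
  have h4 : |a * v 0 * z.re + b * v 1| ≤ √z.im := Real.abs_le_sqrt h2
  have h5 : |a * v 0| ≤ 1 / √z.im := by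
    rw [abs_mul, abs_of_pos hy] at h3
    rw [le_div_iff₀ hs]
    have : |a * v 0| * z.im = |a * v 0| * √z.im * √z.im := by rw [mul_assoc, ← sq, hss]
    rw [this] at h3
    have h6 : |a * v 0| * √z.im * √z.im ≤ 1 * √z.im := by linarith
    exact le_of_mul_le_mul_right h6 hs
  have h6 : |v 0| ≤ |a * v 0| := by
    rw [abs_mul, abs_of_pos (by linarith : (0 : ℝ) < a)]
    nlinarith [abs_nonneg (v 0)]
  have h7 : |v 1| ≤ |b * v 1| := by
    rw [abs_mul, abs_of_pos (by linarith : (0 : ℝ) < b)]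
    nlinarith [abs_nonneg (v 1)]
  have h8 : |b * v 1| ≤ √z.im + |z.re| / √z.im := by
    have e : b * v 1 = (a * v 0 * z.re + b * v 1) - (a * v 0) * z.re := by ring
    rw [e]
    refine (abs_sub _ _).trans ?_
    rw [abs_mul (a * v 0)]
    have : |a * v 0| * |z.re| ≤ 1 / √z.im * |z.re| :=
      mul_le_mul_of_nonneg_right h5 (abs_nonneg _)
    have e2 : 1 / √z.im * |z.re| = |z.re| / √z.im := by ring
    linarith
  have h9 : 0 ≤ |z.re| / √z.im := by positivity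
  have h10 : 0 ≤ 1 / √z.im := by positivity
  rw [pi_norm_le_iff_of_nonneg (by positivity)]
  intro i
  rw [Real.norm_eq_abs]
  fin_cases i
  · show |v 0| ≤ _
    linarith
  · show |v 1| ≤ _
    linarith

theorem El_closed (z : ℍ) (a b : ℝ) : IsClosed (El z a b) := by
  apply isClosed_le _ continuous_const
  fun_prop

theorem El_convex (z : ℍ) (a b : ℝ) : Convex ℝ (El z a b) := by
  have hy : 0 < z.im := z.im_pos
  intro v hv w hw s t hs ht hst
  have hv' : ‖(a : ℂ) * v 0 * z + b * v 1‖ ^ 2 / z.im ≤ 1 := hv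
  have hw' : ‖(a : ℂ) * w 0 * z + b * w 1‖ ^ 2 / z.im ≤ 1 := hw
  show ‖(a : ℂ) * ((s • v + t • w) 0 : ℝ) * z + b * ((s • v + t • w) 1 : ℝ)‖ ^ 2 / z.im ≤ 1
  rw [div_le_one hy] at hv' hw' ⊢
  have e : (a : ℂ) * ((s • v + t • w) 0 : ℝ) * z + b * ((s • v + t • w) 1 : ℝ) =
      s * ((a : ℂ) * v 0 * z + b * v 1) + t * ((a : ℂ) * w 0 * z + b * w 1) := by
    simp only [Pi.add_apply, Pi.smul_apply, smul_eq_mul]
    push_cast
    ring
  rw [e]
  set V := ‖(a : ℂ) * v 0 * z + b * v 1‖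
  set W := ‖(a : ℂ) * w 0 * z + b * w 1‖
  have hV : V ≤ √z.im := Real.le_sqrt_of_sq_le hv'
  have hW : W ≤ √z.im := Real.le_sqrt_of_sq_le hw'
  have h1 : ‖(s : ℂ) * ((a : ℂ) * v 0 * z + b * v 1) + t * ((a : ℂ) * w 0 * z + b * w 1)‖ ≤
      √z.im := by
    refine (norm_add_le _ _).trans ?_
    rw [norm_mul, norm_mul, Complex.norm_real, Complex.norm_real, Real.norm_eq_abs,
      Real.norm_eq_abs, abs_of_nonneg hs, abs_of_nonneg ht]
    calc s * V + t * W ≤ s * √z.im + t * √z.im := by gcongr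
      _ = √z.im := by rw [← add_mul, hst, one_mul]
  calc _ ≤ √z.im ^ 2 := pow_le_pow_left₀ (norm_nonneg _) h1 2
    _ = z.im := Real.sq_sqrt hy.le

theorem El_zero (z : ℍ) (a b : ℝ) : (0 : Fin 2 → ℝ) ∈ El z a b := by
  show ‖(a : ℂ) * ((0 : Fin 2 → ℝ) 0 : ℝ) * z + b * ((0 : Fin 2 → ℝ) 1 : ℝ)‖ ^ 2 / z.im ≤ 1
  simp

theorem El_mono (z : ℍ) (a b : ℝ) ⦃x y : ℝ⦄ (hx : 0 < x) (hxy : x ≤ y) :
    x • El z a b ⊆ y • El z a b := by
  have hy : 0 < y := hx.trans_le hxy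
  rintro _ ⟨v, hv, rfl⟩
  refine ⟨(x / y) • v, ?_, ?_⟩
  · have h0 : 0 ≤ 1 - x / y := by rw [sub_nonneg, div_le_one hy]; exact hxy
    have h1 : 0 ≤ x / y := by positivity
    have h := El_convex z a b (El_zero z a b) hv h0 h1 (by ring)
    rwa [smul_zero, zero_add] at h
  · show y • (x / y) • v = x • v
    rw [smul_smul]
    congr 1
    field_simp

theorem scale_mem (z : ℍ) (a b x : ℝ) (hx : 0 < x) (m n : ℝ) :
    (x⁻¹ • ![m, n] : Fin 2 → ℝ) ∈ El z a b ↔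
      ‖(a : ℂ) * m * z + b * n‖ ^ 2 / z.im ≤ x ^ 2 := by
  show ‖(a : ℂ) * ((x⁻¹ • ![m, n] : Fin 2 → ℝ) 0 : ℝ) * z +
    b * ((x⁻¹ • ![m, n] : Fin 2 → ℝ) 1 : ℝ)‖ ^ 2 / z.im ≤ 1 ↔ _
  have e : (a : ℂ) * ((x⁻¹ • ![m, n] : Fin 2 → ℝ) 0 : ℝ) * z +
      b * ((x⁻¹ • ![m, n] : Fin 2 → ℝ) 1 : ℝ) = (x⁻¹ : ℝ) * ((a : ℂ) * m * z + b * n) := by
    simp only [Pi.smul_apply, smul_eq_mul, Matrix.cons_val_zero, Matrix.cons_val_one]
    push_cast
    ring
  rw [e, norm_mul, Complex.norm_real, Real.norm_eq_abs, abs_of_pos (inv_pos.2 hx), mul_pow,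
    mul_div_assoc, inv_pow, inv_mul_le_iff₀ (by positivity), mul_one]

theorem card_eq (z : ℍ) (a b x : ℝ) (hx : 0 < x) :
    Nat.card ↑(El z a b ∩ x⁻¹ • (Submodule.span ℤ (Set.range (Pi.basisFun ℝ (Fin 2))) :
      Set (Fin 2 → ℝ))) =
    Nat.card {p : ℤ × ℤ // ‖(a : ℂ) * p.1 * z + b * p.2‖ ^ 2 / z.im ≤ x ^ 2} := by
  symm
  have hmem : ∀ p : ℤ × ℤ, (![(p.1 : ℝ), (p.2 : ℝ)] : Fin 2 → ℝ) ∈
      (Submodule.span ℤ (Set.range (Pi.basisFun ℝ (Fin 2))) : Set (Fin 2 → ℝ)) := by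
    intro p
    rw [SetLike.mem_coe, Module.Basis.mem_span_iff_repr_mem ℤ (Pi.basisFun ℝ (Fin 2))]
    intro i
    rw [Pi.basisFun_repr]
    fin_cases i
    · exact ⟨p.1, by simp⟩
    · exact ⟨p.2, by simp⟩
  refine Nat.card_congr (Equiv.ofBijective (fun p => ⟨x⁻¹ • ![(p.1.1 : ℝ), (p.1.2 : ℝ)], ?_, ?_⟩)
    ⟨?_, ?_⟩)
  · rw [scale_mem z a b x hx]
    have := p.2
    push_cast
    exact this
  · exact Set.smul_mem_smul_set (hmem p.1)
  · rintro ⟨p, hp⟩ ⟨q, hq⟩ h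
    have h1 : (x⁻¹ • ![(p.1 : ℝ), (p.2 : ℝ)] : Fin 2 → ℝ) = x⁻¹ • ![(q.1 : ℝ), (q.2 : ℝ)] :=
      congrArg Subtype.val h
    have h2 := smul_right_injective (Fin 2 → ℝ) (inv_pos.2 hx).ne' h1
    have h3 := congrFun h2 0
    have h4 := congrFun h2 1
    simp only [Matrix.cons_val_zero, Matrix.cons_val_one, Int.cast_inj] at h3 h4
    exact Subtype.ext (Prod.ext h3 h4)
  · rintro ⟨v, hv, hvL⟩
    obtain ⟨w, hw, rfl⟩ := hvL
    rw [SetLike.mem_coe, Module.Basis.mem_span_iff_repr_mem ℤ (Pi.basisFun ℝ (Fin 2))] at hw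
    obtain ⟨m, hm⟩ := hw 0
    obtain ⟨n, hn⟩ := hw 1
    rw [Pi.basisFun_repr] at hm hn
    have hw2 : w = ![(m : ℝ), (n : ℝ)] := by
      ext i
      fin_cases i
      · exact hm.symm
      · exact hn.symm
    subst hw2
    refine ⟨⟨(m, n), ?_⟩, rfl⟩
    have h1 := (scale_mem z a b x hx (m : ℝ) (n : ℝ)).1 hv
    push_cast at h1
    exact h1

/-- the number of lattice points in ellipses -/
theorem count (z : ℍ) (a b : ℝ) (ha : 1 ≤ a) (hb : 1 ≤ b) :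
    Tendsto (fun n : ℕ => (Nat.card {p : ℤ × ℤ //
      ‖(a : ℂ) * p.1 * z + b * p.2‖ ^ 2 / z.im ≤ n} : ℝ) / n) atTop
      (𝓝 (Real.pi / (a * b))) := by
  have h := tendsto_card_div_pow_atTop_volume' (El z a b) (El_bdd z a b ha hb)
    (El_closed z a b).measurableSet ((El_convex z a b).addHaar_frontier volume)
    (El_mono z a b)
  rw [El_vol z a b (by linarith) (by linarith)] at h
  have h2 : Tendsto (fun n : ℕ => √(n : ℝ)) atTop atTop :=
    Real.tendsto_sqrt_atTop.comp tendsto_natCast_atTop_atTop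
  refine (h.comp h2).congr' ?_
  filter_upwards [eventually_gt_atTop 0] with n hn
  have hn' : (0 : ℝ) < n := Nat.cast_pos.2 hn
  have hs : 0 < √(n : ℝ) := Real.sqrt_pos.2 hn'
  rw [Function.comp_apply, card_eq z a b _ hs, Fintype.card_fin, Real.sq_sqrt hn'.le]

end Pool.Agent.W409.TW
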