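import Mathlib
import Pool.Agent.W388.TW.D0
import Pool.Agent.W409.TW.Abel
import Pool.Agent.W409.TW.Count

/-! TW-EisLim (project of helper388 on MP_77948b_nt): the residue of the Eisenstein series of
level `N` at `s = 1`. -/

set_option autoImplicit false

open Filter Topology Set UpperHalfPlane

namespace Pool.Agent.W409.TW

/-- `Im z / |c z + d|²` -/
noncomputable def ph (z : ℍ) (p : ℤ × ℤ) : ℝ := z.im / ‖(p.1 : ℂ) * (z : ℂ) + (p.2 : ℂ)‖ ^ 2

theorem ph_nonneg (z : ℍ) (p : ℤ × ℤ) : 0 ≤ ph z p :=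
  div_nonneg z.im_pos.le (by positivity)

theorem ph_zero (z : ℍ) : ph z 0 = 0 := by
  simp [ph]

/-- the lower bound for the norm -/
theorem low (z : ℍ) (p : ℤ × ℤ) (hp : p ≠ 0) :
    EisensteinSeries.r z * ‖![p.1, p.2]‖ ≤ ‖(p.1 : ℂ) * (z : ℂ) + (p.2 : ℂ)‖ := by
  have hne : (![p.1, p.2] : Fin 2 → ℤ) ≠ 0 := by
    intro h
    apply hp
    have h0 := congrFun h 0
    have h1 := congrFun h 1
    simp only [Matrix.cons_val_zero, Matrix.cons_val_one, Pi.zero_apply] at h0 h1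
    exact Prod.ext h0 h1
  have h := EisensteinSeries.r_mul_max_le z hne
  simpa using h

theorem norm_ge_one (p : ℤ × ℤ) (hp : p ≠ 0) : 1 ≤ ‖![p.1, p.2]‖ := by
  rw [EisensteinSeries.norm_eq_max_natAbs]
  have : p.1 ≠ 0 ∨ p.2 ≠ 0 := by
    by_contra hc
    push Not at hc
    exact hp (Prod.ext hc.1 hc.2)
  have h : 1 ≤ max (![p.1, p.2] 0).natAbs (![p.1, p.2] 1).natAbs := by
    rcases this with h | h
    · exact (Int.natAbs_pos.2 h).trans_le (le_max_left _ _)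
    · exact (Int.natAbs_pos.2 h).trans_le (le_max_right _ _)
  exact_mod_cast h

theorem ph_le (z : ℍ) (s : ℝ) (hs : 0 < s) (p : ℤ × ℤ) :
    ph z p ^ s ≤ (z.im / EisensteinSeries.r z ^ 2) ^ s * ‖![p.1, p.2]‖ ^ (-(2 * s)) := by
  have hr := EisensteinSeries.r_pos z
  by_cases hp : p = 0
  · rw [hp, ph_zero, Real.zero_rpow hs.ne']
    have : 0 ≤ z.im / EisensteinSeries.r z ^ 2 := div_nonneg z.im_pos.le (by positivity)
    positivity
  · have h1 := low z p hp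
    have h2 := norm_ge_one p hp
    have h3 : 0 < ‖![p.1, p.2]‖ := by linarith
    have h4 : ph z p ≤ z.im / EisensteinSeries.r z ^ 2 * (‖![p.1, p.2]‖ ^ 2)⁻¹ := by
      have e : z.im / EisensteinSeries.r z ^ 2 * (‖![p.1, p.2]‖ ^ 2)⁻¹ =
          z.im / (EisensteinSeries.r z * ‖![p.1, p.2]‖) ^ 2 := by
        rw [mul_pow]
        field_simp
      rw [e, ph]
      exact div_le_div_of_nonneg_left z.im_pos.le (by positivity)
        (pow_le_pow_left₀ (by positivity) h1 2)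
    calc ph z p ^ s ≤ (z.im / EisensteinSeries.r z ^ 2 * (‖![p.1, p.2]‖ ^ 2)⁻¹) ^ s :=
          Real.rpow_le_rpow (ph_nonneg z p) h4 hs.le
      _ = _ := by
          rw [Real.mul_rpow (div_nonneg z.im_pos.le (by positivity)) (by positivity)]
          congr 1
          rw [Real.inv_rpow (by positivity), ← Real.rpow_natCast, ← Real.rpow_mul h3.le,
            ← Real.rpow_neg h3.le]
          norm_num

theorem ph_summ (z : ℍ) (s : ℝ) (hs : 1 < s) : Summable fun p : ℤ × ℤ => ph z p ^ s := by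
  have h1 := EisensteinSeries.summable_one_div_norm_rpow (k := 2 * s) (by linarith)
  have h2 : Summable fun p : ℤ × ℤ => ‖(![p.1, p.2] : Fin 2 → ℤ)‖ ^ (-(2 * s)) :=
    (finTwoArrowEquiv ℤ).symm.summable_iff.2 h1
  exact Summable.of_nonneg_of_le (fun p => Real.rpow_nonneg (ph_nonneg z p) _)
    (ph_le z s (by linarith)) (h2.mul_left _)

/-- finiteness of sublevel sets -/
theorem fin_sub {ι : Type*} (Q : ι → ℝ) (hQ : ∀ p, 0 < Q p)
    (hsum : Summable fun p => Q p ^ (-2 : ℝ)) (n : ℕ) : {p | Q p ≤ n}.Finite := by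
  have h2 := hsum.tendsto_cofinite_zero
  have h3 : ∀ᶠ p in cofinite, Q p ^ (-2 : ℝ) < ((n : ℝ) + 1) ^ (-2 : ℝ) :=
    h2.eventually (gt_mem_nhds (Real.rpow_pos_of_pos (by positivity) _))
  rw [Filter.eventually_cofinite] at h3
  refine Set.Finite.subset h3 ?_
  intro p hp
  have hp' : Q p ≤ n := hp
  have : ¬ (Q p ^ (-2 : ℝ) < ((n : ℝ) + 1) ^ (-2 : ℝ)) := by
    rw [not_lt]
    exact Real.rpow_le_rpow_of_nonpos (hQ p) (by linarith) (by norm_num)
  exact this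

/-- scaling -/
def sc (a b : ℕ) (p : ℤ × ℤ) : ℤ × ℤ := ((a : ℤ) * p.1, (b : ℤ) * p.2)

theorem sc_inj (a b : ℕ) (ha : 0 < a) (hb : 0 < b) : Function.Injective (sc a b) := by
  intro p q h
  have h1 := congrArg Prod.fst h
  have h2 := congrArg Prod.snd h
  have ha' : (a : ℤ) ≠ 0 := by exact_mod_cast ha.ne'
  have hb' : (b : ℤ) ≠ 0 := by exact_mod_cast hb.ne'
  exact Prod.ext (mul_left_cancel₀ ha' h1) (mul_left_cancel₀ hb' h2)

theorem sc_ne (a b : ℕ) (ha : 0 < a) (hb : 0 < b) (p : ℤ × ℤ) (hp : p ≠ 0) : sc a b p ≠ 0 := by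
  intro h
  apply hp
  apply sc_inj a b ha hb
  rw [h]
  simp [sc]
  rfl

theorem lim_ab (z : ℍ) (a b : ℕ) (ha : 0 < a) (hb : 0 < b) :
    Tendsto (fun σ : ℝ => σ * ∑' p : ℤ × ℤ, ph z (sc a b p) ^ (1 + σ)) (𝓝[>] 0)
      (𝓝 (Real.pi / (a * b))) := by
  have hr := EisensteinSeries.r_pos z
  have hy := z.im_pos
  set Q : {p : ℤ × ℤ // p ≠ 0} → ℝ := fun p =>
    ‖((a : ℝ) : ℂ) * p.1.1 * z + ((b : ℝ) : ℂ) * p.1.2‖ ^ 2 / z.im with hQ
  have hQph : ∀ p, Q p = (ph z (sc a b p.1))⁻¹ := by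
    intro p
    rw [hQ, ph, inv_div]
    simp only [sc]
    push_cast
    rfl
  have hq0 : ∀ p, EisensteinSeries.r z ^ 2 / z.im ≤ Q p := by
    intro p
    rw [hQph, ph, inv_div]
    have h1 := low z (sc a b p.1) (sc_ne a b ha hb p.1 p.2)
    have h2 := norm_ge_one (sc a b p.1) (sc_ne a b ha hb p.1 p.2)
    have h3 : EisensteinSeries.r z ≤ ‖((sc a b p.1).1 : ℂ) * (z : ℂ) + ((sc a b p.1).2 : ℂ)‖ := by
      nlinarith
    exact div_le_div_of_nonneg_right (pow_le_pow_left₀ hr.le h3 2) hy.le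
  have hq0p : 0 < EisensteinSeries.r z ^ 2 / z.im := by positivity
  have hQp : ∀ p, 0 < Q p := fun p => hq0p.trans_le (hq0 p)
  have hpow : ∀ (s : ℝ) (p : {p : ℤ × ℤ // p ≠ 0}), Q p ^ (-s) = ph z (sc a b p.1) ^ s := by
    intro s p
    rw [hQph, Real.inv_rpow (ph_nonneg _ _), Real.rpow_neg (ph_nonneg _ _), inv_inv]
  have hinj : Function.Injective (fun p : {p : ℤ × ℤ // p ≠ 0} => sc a b p.1) :=
    (sc_inj a b ha hb).comp Subtype.val_injective
  have hsum : ∀ s : ℝ, 1 < s → Summable fun p => Q p ^ (-s) := by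
    intro s hs
    simp_rw [hpow]
    exact (ph_summ z s hs).comp_injective hinj
  have hcount : Tendsto (fun n : ℕ => (Nat.card {p // Q p ≤ n} : ℝ) / n) atTop
      (𝓝 (Real.pi / (a * b))) := by
    have h1 := count z a b (by exact_mod_cast ha) (by exact_mod_cast hb)
    have h2 : ∀ n : ℕ, Nat.card {p : ℤ × ℤ //
        ‖((a : ℝ) : ℂ) * p.1 * z + ((b : ℝ) : ℂ) * p.2‖ ^ 2 / z.im ≤ n} =
        Nat.card {p // Q p ≤ n} + 1 := by
      intro n
      have hf : Finite {p // Q p ≤ n} := fin_sub Q hQp (hsum 2 (by norm_num)) n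
      rw [← Finite.card_option]
      refine Nat.card_congr
        { toFun := fun p => if h : p.1 = 0 then none else some ⟨⟨p.1, h⟩, p.2⟩
          invFun := fun o => match o with
            | none => ⟨0, by simp⟩
            | some q => ⟨q.1.1, q.2⟩
          left_inv := ?_
          right_inv := ?_ }
      · rintro ⟨p, hp⟩
        by_cases h : p = 0
        · subst h
          simp
        · simp [h]
      · rintro (_ | ⟨⟨p, hp⟩, hpn⟩)
        · simp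
        · simp [hp]
    simp_rw [h2] at h1
    have h3 : Tendsto (fun n : ℕ => (1 : ℝ) / n) atTop (𝓝 0) := tendsto_one_div_atTop_nhds_zero_nat
    have h4 := h1.sub h3
    rw [sub_zero] at h4
    refine h4.congr fun n => ?_
    push_cast
    ring
  have h := abel Q _ _ hq0p hq0 hsum hcount
  refine h.congr' ?_
  filter_upwards [self_mem_nhdsWithin] with σ hσ
  have hσ' : (0 : ℝ) < σ := hσ
  congr 1
  simp_rw [hpow]
  have hsc0 : sc a b 0 = 0 := Prod.ext (by simp [sc]) (by simp [sc])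
  refine Function.Injective.tsum_eq (g := fun p : {p : ℤ × ℤ // p ≠ 0} => p.1)
    (f := fun p : ℤ × ℤ => ph z (sc a b p) ^ (1 + σ)) Subtype.val_injective ?_
  intro p hp
  refine ⟨⟨p, ?_⟩, rfl⟩
  intro h
  apply hp
  subst h
  show ph z (sc a b 0) ^ (1 + σ) = 0
  rw [hsc0, ph_zero, Real.zero_rpow (by linarith)]

/-! ### arithmetic -/

theorem moeb (N : ℕ) (hN : 0 < N) (d : ℤ) :
    ∑ e ∈ N.divisors, (if (e : ℤ) ∣ d then (ArithmeticFunction.moebius e : ℝ) else 0) =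
      if IsCoprime d (N : ℤ) then 1 else 0 := by
  rw [← Finset.sum_filter]
  have h1 : N.divisors.filter (fun e : ℕ => (e : ℤ) ∣ d) = (Nat.gcd d.natAbs N).divisors := by
    ext e
    rw [Finset.mem_filter, Nat.mem_divisors, Nat.mem_divisors, Int.natCast_dvd]
    constructor
    · rintro ⟨⟨h1, h2⟩, h3⟩
      exact ⟨Nat.dvd_gcd h3 h1, (Nat.gcd_pos_of_pos_right _ hN).ne'⟩
    · rintro ⟨h1, -⟩
      exact ⟨⟨h1.trans (Nat.gcd_dvd_right _ _), hN.ne'⟩, h1.trans (Nat.gcd_dvd_left _ _)⟩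
  rw [h1]
  have h2 : ∑ e ∈ (Nat.gcd d.natAbs N).divisors, ArithmeticFunction.moebius e =
      if Nat.gcd d.natAbs N = 1 then 1 else 0 := by
    rw [← ArithmeticFunction.coe_mul_zeta_apply, ArithmeticFunction.moebius_mul_coe_zeta,
      ArithmeticFunction.one_apply]
  have h3 : IsCoprime d (N : ℤ) ↔ Nat.gcd d.natAbs N = 1 := by
    rw [Int.isCoprime_iff_gcd_eq_one]
    rfl
  have h4 : (∑ e ∈ (Nat.gcd d.natAbs N).divisors, (ArithmeticFunction.moebius e : ℝ)) =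
      ((if Nat.gcd d.natAbs N = 1 then 1 else 0 : ℤ) : ℝ) := by
    rw [← h2]
    push_cast
    rfl
  rw [h4]
  by_cases h : Nat.gcd d.natAbs N = 1
  · rw [if_pos h, if_pos (h3.2 h)]; simp
  · rw [if_neg h, if_neg (fun h' => h (h3.1 h'))]; simp

/-- the constant is positive -/
theorem kap_pos (N : ℕ) (hN : 0 < N) :
    0 < ∑ e ∈ N.divisors, (ArithmeticFunction.moebius e : ℝ) * (Real.pi / (N * e)) := by
  have h1 := (ArithmeticFunction.sum_eq_iff_sum_mul_moebius_eq (R := ℝ)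
    (f := fun n => (Nat.totient n : ℝ)) (g := fun n => (n : ℝ))).1 (fun n _ => by
      have := Nat.sum_totient n
      exact_mod_cast this) N hN
  rw [Nat.sum_divisorsAntidiagonal
    (f := fun i j => (ArithmeticFunction.moebius i : ℝ) * (j : ℝ))] at h1
  have h2 : ∑ e ∈ N.divisors, (ArithmeticFunction.moebius e : ℝ) * (Real.pi / (N * e)) =
      Real.pi / (N : ℝ) ^ 2 *
        ∑ e ∈ N.divisors, (ArithmeticFunction.moebius e : ℝ) * ((N / e : ℕ) : ℝ) := by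
    rw [Finset.mul_sum]
    refine Finset.sum_congr rfl fun e he => ?_
    have hed : e ∣ N := (Nat.mem_divisors.1 he).1
    have he0 : 0 < e := Nat.pos_of_dvd_of_pos hed hN
    have : ((N / e : ℕ) : ℝ) = (N : ℝ) / e := Nat.cast_div hed (by exact_mod_cast he0.ne')
    rw [this]
    have hN' : (N : ℝ) ≠ 0 := by exact_mod_cast hN.ne'
    have he' : (e : ℝ) ≠ 0 := by exact_mod_cast he0.ne'
    field_simp
  rw [h2, h1]
  have h3 : 0 < Nat.totient N := Nat.totient_pos.2 hN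
  have h4 : (0 : ℝ) < (Nat.totient N : ℝ) := by exact_mod_cast h3
  have hN' : (0 : ℝ) < N := by exact_mod_cast hN
  have := Real.pi_pos
  positivity

/-- the sum over all pairs `(c, d)` with `N ∣ c` and `d` coprime to `N` -/
noncomputable def AN (N : ℕ) (z : ℍ) (s : ℝ) : ℝ :=
  open Classical in ∑' p : ℤ × ℤ, if (N : ℤ) ∣ p.1 ∧ IsCoprime p.2 (N : ℤ) then ph z p ^ s else 0

theorem AN_moeb (N : ℕ) (hN : 0 < N) (z : ℍ) (s : ℝ) (hs : 1 < s) :
    AN N z s = ∑ e ∈ N.divisors, (ArithmeticFunction.moebius e : ℝ) *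
      ∑' p : ℤ × ℤ, ph z (sc N e p) ^ s := by
  classical
  have hsm : ∀ e : ℕ, Summable fun p : ℤ × ℤ =>
      (if (N : ℤ) ∣ p.1 ∧ (e : ℤ) ∣ p.2 then ph z p ^ s else 0) := by
    intro e
    refine Summable.of_nonneg_of_le (fun p => ?_) (fun p => ?_) (ph_summ z s hs)
    · split_ifs
      · exact Real.rpow_nonneg (ph_nonneg _ _) _
      · exact le_rfl
    · split_ifs
      · exact le_rfl
      · exact Real.rpow_nonneg (ph_nonneg _ _) _
  have h1 : ∀ e ∈ N.divisors, ∑' p : ℤ × ℤ, ph z (sc N e p) ^ s =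
      ∑' p : ℤ × ℤ, (if (N : ℤ) ∣ p.1 ∧ (e : ℤ) ∣ p.2 then ph z p ^ s else 0) := by
    intro e he
    have he0 : 0 < e := Nat.pos_of_mem_divisors he
    have h2 := Function.Injective.tsum_eq (f := fun p : ℤ × ℤ =>
      (if (N : ℤ) ∣ p.1 ∧ (e : ℤ) ∣ p.2 then ph z p ^ s else 0)) (sc_inj N e hN he0) (by
        intro p hp
        by_contra hcon
        apply hp
        show (if (N : ℤ) ∣ p.1 ∧ (e : ℤ) ∣ p.2 then ph z p ^ s else 0) = 0
        rw [if_neg]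
        rintro ⟨⟨m, hm⟩, ⟨n, hn⟩⟩
        exact hcon ⟨(m, n), Prod.ext hm.symm hn.symm⟩)
    rw [← h2]
    refine tsum_congr fun p => ?_
    rw [if_pos]
    exact ⟨⟨p.1, rfl⟩, ⟨p.2, rfl⟩⟩
  rw [Finset.sum_congr rfl fun e he => by rw [h1 e he]]
  simp_rw [← tsum_mul_left]
  rw [← Summable.tsum_finsetSum (fun e _ => (hsm e).mul_left _)]
  rw [AN]
  refine tsum_congr fun p => ?_
  by_cases hp : (N : ℤ) ∣ p.1
  · have h2 : ∀ e ∈ N.divisors, (ArithmeticFunction.moebius e : ℝ) *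
        (if (N : ℤ) ∣ p.1 ∧ (e : ℤ) ∣ p.2 then ph z p ^ s else 0) =
        (if (e : ℤ) ∣ p.2 then (ArithmeticFunction.moebius e : ℝ) else 0) * ph z p ^ s := by
      intro e _
      by_cases h : (e : ℤ) ∣ p.2
      · rw [if_pos ⟨hp, h⟩, if_pos h]
      · rw [if_neg (fun h' => h h'.2), if_neg h, mul_zero, zero_mul]
    rw [Finset.sum_congr rfl h2, ← Finset.sum_mul, moeb N hN]
    by_cases h : IsCoprime p.2 (N : ℤ)
    · rw [if_pos ⟨hp, h⟩, if_pos h, one_mul]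
    · rw [if_neg (fun h' => h h'.2), if_neg h, zero_mul]
  · rw [if_neg (fun h' => hp h'.1)]
    symm
    apply Finset.sum_eq_zero
    intro e _
    rw [if_neg (fun h' => hp h'.1), mul_zero]

/-- index set of the gcds -/
abbrev Gi (N : ℕ) : Type := {g : ℕ // 0 < g ∧ g.Coprime N}

/-- index set of the Eisenstein series -/
abbrev Pi' (N : ℕ) : Type := {p : ℤ × ℤ // IsCoprime p.1 p.2 ∧ (N : ℤ) ∣ p.1}

/-- multiplication by the gcd -/
def mE (N : ℕ) (x : Gi N × Pi' N) : ℤ × ℤ := sc x.1.1 x.1.1 x.2.1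

theorem mE_gcd (N : ℕ) (x : Gi N × Pi' N) : Int.gcd (mE N x).1 (mE N x).2 = x.1.1 := by
  show Int.gcd ((x.1.1 : ℤ) * x.2.1.1) ((x.1.1 : ℤ) * x.2.1.2) = x.1.1
  rw [Int.gcd_mul_left, Int.isCoprime_iff_gcd_eq_one.1 x.2.2.1, mul_one, Int.natAbs_natCast]

theorem mE_inj (N : ℕ) : Function.Injective (mE N) := by
  rintro ⟨⟨g, hg⟩, ⟨p, hp⟩⟩ ⟨⟨g', hg'⟩, ⟨p', hp'⟩⟩ h
  have h1 := mE_gcd N ⟨⟨g, hg⟩, ⟨p, hp⟩⟩
  have h2 := mE_gcd N ⟨⟨g', hg'⟩, ⟨p', hp'⟩⟩
  rw [h, h2] at h1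
  have hgg : g' = g := h1
  subst hgg
  have h3 : p = p' := sc_inj g' g' hg.1 hg.1 h
  subst h3
  rfl

theorem ph_sc (z : ℍ) (g : ℕ) (p : ℤ × ℤ) : ph z (sc g g p) = ((g : ℝ) ^ 2)⁻¹ * ph z p := by
  rw [ph, ph, sc]
  have e : (((g : ℤ) * p.1 : ℤ) : ℂ) * (z : ℂ) + (((g : ℤ) * p.2 : ℤ) : ℂ) =
      (g : ℂ) * ((p.1 : ℂ) * z + p.2) := by
    push_cast
    ring
  simp only [e, norm_mul, Complex.norm_natCast]
  rw [mul_pow, div_mul_eq_div_div_swap, div_eq_inv_mul _ ((g : ℝ) ^ 2)]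

theorem AN_gcd (N : ℕ) (z : ℍ) (s : ℝ) (hs : 1 < s) :
    AN N z s = (∑' g : Gi N, (((g : ℕ) : ℝ) ^ 2)⁻¹ ^ s) * ∑' p : Pi' N, ph z p.1 ^ s := by
  classical
  have hF : Summable fun p : ℤ × ℤ =>
      (if (N : ℤ) ∣ p.1 ∧ IsCoprime p.2 (N : ℤ) then ph z p ^ s else 0) := by
    refine Summable.of_nonneg_of_le (fun p => ?_) (fun p => ?_) (ph_summ z s hs)
    · split_ifs
      · exact Real.rpow_nonneg (ph_nonneg _ _) _
      · exact le_rfl
    · split_ifs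
      · exact le_rfl
      · exact Real.rpow_nonneg (ph_nonneg _ _) _
  have hcop : ∀ x : Gi N × Pi' N, (N : ℤ) ∣ (mE N x).1 ∧ IsCoprime (mE N x).2 (N : ℤ) := by
    rintro ⟨⟨g, hg⟩, ⟨p, hp⟩⟩
    refine ⟨Dvd.dvd.mul_left hp.2 _, ?_⟩
    show IsCoprime ((g : ℤ) * p.2) (N : ℤ)
    refine IsCoprime.mul_left (Nat.isCoprime_iff_coprime.2 hg.2) ?_
    exact hp.1.symm.of_isCoprime_of_dvd_right hp.2
  have hval : ∀ x : Gi N × Pi' N,
      (if (N : ℤ) ∣ (mE N x).1 ∧ IsCoprime (mE N x).2 (N : ℤ) then ph z (mE N x) ^ s else 0) =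
      (((x.1 : ℕ) : ℝ) ^ 2)⁻¹ ^ s * ph z x.2.1 ^ s := by
    intro x
    rw [if_pos (hcop x)]
    show ph z (sc x.1.1 x.1.1 x.2.1) ^ s = _
    rw [ph_sc, Real.mul_rpow (by positivity) (ph_nonneg _ _)]
  have hkey := Function.Injective.tsum_eq (f := fun p : ℤ × ℤ =>
      (if (N : ℤ) ∣ p.1 ∧ IsCoprime p.2 (N : ℤ) then ph z p ^ s else 0)) (mE_inj N) (by
    intro p hp
    by_contra hcon
    apply hp
    show (if (N : ℤ) ∣ p.1 ∧ IsCoprime p.2 (N : ℤ) then ph z p ^ s else 0) = 0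
    by_cases hp0 : p = 0
    · rw [hp0, ph_zero, Real.zero_rpow (by linarith)]
      simp
    rw [if_neg]
    rintro ⟨hd, hc⟩
    apply hcon
    have hg : 0 < Int.gcd p.1 p.2 := by
      rw [Int.gcd_pos_iff]
      by_contra h
      push Not at h
      exact hp0 (Prod.ext h.1 h.2)
    obtain ⟨a, ha⟩ : ((Int.gcd p.1 p.2 : ℕ) : ℤ) ∣ p.1 := Int.gcd_dvd_left ..
    obtain ⟨b, hb⟩ : ((Int.gcd p.1 p.2 : ℕ) : ℤ) ∣ p.2 := Int.gcd_dvd_right ..
    have hab : IsCoprime a b := by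
      rw [Int.isCoprime_iff_gcd_eq_one]
      have h1 := Int.gcd_mul_left (Int.gcd p.1 p.2 : ℤ) a b
      rw [← ha, ← hb, Int.natAbs_natCast] at h1
      exact Nat.eq_of_mul_eq_mul_left hg (by rw [← h1, mul_one])
    have hgN : IsCoprime ((Int.gcd p.1 p.2 : ℕ) : ℤ) (N : ℤ) := by
      rw [hb] at hc
      exact hc.of_mul_left_left
    refine ⟨⟨⟨Int.gcd p.1 p.2, hg, Nat.isCoprime_iff_coprime.1 hgN⟩, ⟨(a, b), hab, ?_⟩⟩,
      Prod.ext ha.symm hb.symm⟩
    show (N : ℤ) ∣ a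
    rw [ha] at hd
    exact hgN.symm.dvd_of_dvd_mul_left hd)
  rw [AN, ← hkey]
  · rw [tsum_congr hval]
    have h1 : Summable fun g : Gi N => (((g : ℕ) : ℝ) ^ 2)⁻¹ ^ s := by
      have h2 : Summable fun n : ℕ => (((n : ℕ) : ℝ) ^ 2)⁻¹ ^ s := by
        have h3 : Summable fun n : ℕ => (n : ℝ) ^ (-(2 * s)) :=
          Real.summable_nat_rpow.2 (by linarith)
        refine h3.congr fun n => ?_
        rw [Real.inv_rpow (by positivity), ← Real.rpow_natCast, ← Real.rpow_mul (by positivity),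
          ← Real.rpow_neg (by positivity)]
        norm_num
      exact h2.comp_injective Subtype.val_injective
    have h2 : Summable fun p : Pi' N => ph z p.1 ^ s :=
      (ph_summ z s hs).comp_injective Subtype.val_injective
    have h3 : Summable fun x : Gi N × Pi' N => (((x.1 : ℕ) : ℝ) ^ 2)⁻¹ ^ s * ph z x.2.1 ^ s :=
      (hF.comp_injective (mE_inj N)).congr hval
    exact (h1.tsum_mul_tsum h2 h3).symm

/-- the sum over the gcds -/
theorem G_lim (N : ℕ) :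
    Tendsto (fun σ : ℝ => ∑' g : Gi N, (((g : ℕ) : ℝ) ^ 2)⁻¹ ^ (1 + σ)) (𝓝[>] 0)
      (𝓝 (∑' g : Gi N, (((g : ℕ) : ℝ) ^ 2)⁻¹)) ∧
    0 < ∑' g : Gi N, (((g : ℕ) : ℝ) ^ 2)⁻¹ := by
  have hs : Summable fun g : Gi N => (((g : ℕ) : ℝ) ^ 2)⁻¹ := by
    have h2 : Summable fun n : ℕ => (((n : ℕ) : ℝ) ^ 2)⁻¹ :=
      Real.summable_nat_pow_inv.2 (by norm_num)
    exact h2.comp_injective Subtype.val_injective
  have hb : ∀ g : Gi N, 0 < (((g : ℕ) : ℝ) ^ 2)⁻¹ ∧ (((g : ℕ) : ℝ) ^ 2)⁻¹ ≤ 1 := by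
    intro g
    have h1 : (1 : ℝ) ≤ ((g : ℕ) : ℝ) := by exact_mod_cast g.2.1
    refine ⟨by positivity, ?_⟩
    apply inv_le_one_of_one_le₀
    nlinarith
  refine ⟨?_, ?_⟩
  · refine tendsto_tsum_of_dominated_convergence hs (fun g => ?_) ?_
    · have h1 : Tendsto (fun σ : ℝ => (((g : ℕ) : ℝ) ^ 2)⁻¹ ^ (1 + σ)) (𝓝 0)
          (𝓝 ((((g : ℕ) : ℝ) ^ 2)⁻¹ ^ (1 + (0 : ℝ)))) := by
        have : Continuous fun σ : ℝ => (((g : ℕ) : ℝ) ^ 2)⁻¹ ^ (1 + σ) :=
          continuous_const.rpow (continuous_const.add continuous_id)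
            (fun _ => Or.inl (hb g).1.ne')
        exact this.tendsto 0
      rw [add_zero, Real.rpow_one] at h1
      exact h1.mono_left nhdsWithin_le_nhds
    · filter_upwards [self_mem_nhdsWithin] with σ hσ g
      have hσ' : (0 : ℝ) < σ := hσ
      rw [Real.norm_eq_abs, abs_of_nonneg (Real.rpow_nonneg (hb g).1.le _)]
      calc (((g : ℕ) : ℝ) ^ 2)⁻¹ ^ (1 + σ) ≤ (((g : ℕ) : ℝ) ^ 2)⁻¹ ^ (1 : ℝ) :=
            Real.rpow_le_rpow_of_exponent_ge (hb g).1 (hb g).2 (by linarith)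
        _ = _ := Real.rpow_one _
  · exact hs.tsum_pos (fun g => (hb g).1.le) ⟨1, one_pos, Nat.coprime_one_left N⟩ (hb _).1

/-- TW-EisLim -/
theorem t_eislim : W388.StEisLim := by
  intro N hNz
  have hN : 0 < N := Nat.pos_of_ne_zero (NeZero.ne N)
  obtain ⟨hG, hGp⟩ := G_lim N
  set κ₁ : ℝ := ∑ e ∈ N.divisors, (ArithmeticFunction.moebius e : ℝ) * (Real.pi / (N * e))
    with hκ₁
  refine ⟨κ₁ / ∑' g : Gi N, (((g : ℕ) : ℝ) ^ 2)⁻¹, div_pos (kap_pos N hN) hGp, fun z => ⟨?_, ?_⟩⟩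
  · intro σ hσ
    exact (ph_summ z (1 + σ) (by linarith)).comp_injective
      (i := fun p : Pi' N => p.1) Subtype.val_injective
  · have hA : Tendsto (fun σ : ℝ => σ * AN N z (1 + σ)) (𝓝[>] 0) (𝓝 κ₁) := by
      have h1 : Tendsto (fun σ : ℝ => ∑ e ∈ N.divisors, (ArithmeticFunction.moebius e : ℝ) *
          (σ * ∑' p : ℤ × ℤ, ph z (sc N e p) ^ (1 + σ))) (𝓝[>] 0) (𝓝 κ₁) :=
        tendsto_finsetSum _ fun e he =>
          (lim_ab z N e hN (Nat.pos_of_mem_divisors he)).const_mul _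
      refine h1.congr' ?_
      filter_upwards [self_mem_nhdsWithin] with σ hσ
      have hσ' : (0 : ℝ) < σ := hσ
      rw [AN_moeb N hN z (1 + σ) (by linarith), Finset.mul_sum]
      refine Finset.sum_congr rfl fun e _ => ?_
      ring
    have h2 := hA.div hG hGp.ne'
    refine h2.congr' ?_
    have h3 : ∀ᶠ σ : ℝ in 𝓝[>] 0, 0 < ∑' g : Gi N, (((g : ℕ) : ℝ) ^ 2)⁻¹ ^ (1 + σ) :=
      hG.eventually (lt_mem_nhds hGp)
    filter_upwards [self_mem_nhdsWithin, h3] with σ hσ h4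
    have hσ' : (0 : ℝ) < σ := hσ
    rw [Pi.div_apply, AN_gcd N z (1 + σ) (by linarith)]
    rw [← mul_assoc, mul_comm σ, mul_assoc, mul_div_assoc, mul_comm, div_mul_cancel₀ _ h4.ne']
    rfl

end Pool.Agent.W409.TW
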